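import Pool.Agent.N89.HX.Stm

/-!
# HX/GEO: the resolvent of a polynomial over `ℂ(x)` with Galois group `S_e` is irreducible
-/

set_option autoImplicit false

namespace Pool.Agent.N362.HX

open Polynomial Pool.Agent.N89.HX

/-! ### Coefficients of `pol`, `mono`, `rs` -/

theorem pol_coeff {A : Type} [CommRing A] {e : ℕ} (f : Fin (e + 1) → A) (i : Fin (e + 1)) :
    (pol f).coeff (i : ℕ) = f i := by
  unfold pol
  rw [finsetSum_coeff, Finset.sum_eq_single i]
  · simp
  · intro j _ hj
    rw [coeff_C_mul_X_pow, if_neg]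
    intro h
    exact hj (Fin.ext h.symm)
  · intro h
    exact absurd (Finset.mem_univ i) h

theorem pol_map {A B : Type} [CommRing A] [CommRing B] (φ : A →+* B) {e : ℕ}
    (f : Fin (e + 1) → A) : (pol f).map φ = pol (fun i => φ (f i)) := by
  unfold pol
  rw [Polynomial.map_sum]
  refine Finset.sum_congr rfl fun i _ => ?_
  rw [Polynomial.map_mul, Polynomial.map_C, Polynomial.map_pow, Polynomial.map_X]

theorem mono_map {A B : Type} [CommRing A] [CommRing B] (φ : A →+* B) {e : ℕ}
    (f : Fin (e + 1) → A) : (mono f).map φ = mono (fun i => φ (f i)) := by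
  unfold mono
  rw [Polynomial.map_add, Polynomial.map_sum, Polynomial.map_pow, Polynomial.map_X]
  congr 1
  refine Finset.sum_congr rfl fun i _ => ?_
  rw [Polynomial.map_mul, Polynomial.map_C, Polynomial.map_pow, Polynomial.map_X, map_mul, map_pow]

theorem rs_map {A B : Type} [CommRing A] [CommRing B] (φ : A →+* B) {e : ℕ}
    (R : Fin e.factorial → MvPolynomial (Fin (e + 1) ⊕ Fin e) ℤ) (f : Fin (e + 1) → A)
    (ω : Fin e → A) : (rs R f ω).map φ = rs R (fun i => φ (f i)) (fun i => φ (ω i)) := by
  unfold rs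
  rw [Polynomial.map_add, Polynomial.map_sum, Polynomial.map_pow, Polynomial.map_X]
  congr 1
  refine Finset.sum_congr rfl fun i _ => ?_
  rw [Polynomial.map_mul, Polynomial.map_C, Polynomial.map_pow, Polynomial.map_X]
  congr 2
  rw [MvPolynomial.aeval_def, MvPolynomial.aeval_def, MvPolynomial.eval₂_eq',
    MvPolynomial.eval₂_eq', map_sum]
  refine Finset.sum_congr rfl fun m _ => ?_
  rw [map_mul, map_prod]
  congr 1
  · simp
  · refine Finset.prod_congr rfl fun j _ => ?_
    rw [map_pow]
    congr 1
    rcases j with j | j <;> rfl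

theorem rs_monic {A : Type} [CommRing A] [Nontrivial A] {e : ℕ}
    (R : Fin e.factorial → MvPolynomial (Fin (e + 1) ⊕ Fin e) ℤ) (f : Fin (e + 1) → A)
    (ω : Fin e → A) : (rs R f ω).Monic ∧ (rs R f ω).natDegree = e.factorial := by
  have hd : (∑ i : Fin e.factorial,
      C (MvPolynomial.aeval (Sum.elim f ω) (R i)) * (X : A[X]) ^ (i : ℕ)).degree
      < (e.factorial : WithBot ℕ) := by
    refine lt_of_le_of_lt (degree_sum_le _ _) ?_
    rw [Finset.sup_lt_iff (by exact WithBot.bot_lt_coe _)]
    intro i _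
    refine lt_of_le_of_lt (degree_C_mul_X_pow_le _ _) ?_
    exact_mod_cast i.2
  refine ⟨monic_X_pow_add hd, ?_⟩
  unfold rs
  rw [natDegree_add_eq_left_of_degree_lt (by rwa [degree_X_pow]), natDegree_X_pow]

/-- the roots of `mono f` -/
theorem mono_eq {M : Type} [Field M] {e : ℕ} (he : 1 ≤ e) (f : Fin (e + 1) → M) (x : Fin e → M)
    (h0 : f (Fin.last e) ≠ 0) (hf : pol f = C (f (Fin.last e)) * ∏ i, (X - C (x i))) :
    mono f = ∏ i, (X - C (f (Fin.last e) * x i)) := by
  set a := f (Fin.last e) with ha
  have hinj : Function.Injective (fun p : M[X] => p.comp (C a * X)) := by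
    intro p q hpq
    have hpq' : p.comp (C a * X) = q.comp (C a * X) := hpq
    have h1 : ∀ r : M[X], (r.comp (C a * X)).comp (C a⁻¹ * X) = r := by
      intro r
      rw [comp_assoc]
      have : (C a * X : M[X]).comp (C a⁻¹ * X) = X := by
        rw [mul_comp, C_comp, X_comp, ← mul_assoc, ← C_mul, mul_inv_cancel₀ h0, C_1, one_mul]
      rw [this, comp_X]
    rw [← h1 p, ← h1 q, hpq']
  apply hinj
  show (mono f).comp (C a * X) = (∏ i, (X - C (a * x i))).comp (C a * X)
  have h2 : (∏ i, (X - C (a * x i))).comp (C a * X) = C (a ^ (e - 1)) * pol f := by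
    rw [hf, prod_comp]
    have : ∀ i : Fin e, (X - C (a * x i)).comp (C a * X) = C a * (X - C (x i)) := by
      intro i
      rw [sub_comp, X_comp, C_comp, C_mul]
      ring
    rw [Finset.prod_congr rfl fun i _ => this i, Finset.prod_mul_distrib, Finset.prod_const,
      Finset.card_univ, Fintype.card_fin, ← mul_assoc, ← C_mul, ← pow_succ, Nat.sub_add_cancel he,
      C_pow]
  rw [h2]
  unfold mono pol
  rw [Fin.sum_univ_castSucc, add_comp, pow_comp, X_comp, mul_add, add_comm]
  congr 1
  · rw [← Polynomial.coe_compRingHom_apply, map_sum, Finset.mul_sum]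
    refine Finset.sum_congr rfl fun i _ => ?_
    rw [Polynomial.coe_compRingHom_apply, mul_comp, C_comp, pow_comp, X_comp, mul_pow, ← C_pow,
      ← mul_assoc, ← mul_assoc, ← C_mul, ← C_mul]
    congr 2
    · rw [← ha]
      have : a ^ (e - 1) = a ^ (e - 1 - (i : ℕ)) * a ^ (i : ℕ) := by
        rw [← pow_add]
        congr 1
        have := i.2
        omega
      rw [this]
      ring
  · rw [mul_pow, ← C_pow, ← mul_assoc, ← C_mul, ← ha]
    congr 2
    rw [← pow_succ, Nat.sub_add_cancel he]

/-! ### The irreducibility over a field -/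

theorem last_ne_zero {K : Type} [Field K] {e : ℕ} (he : 1 ≤ e) {f : Fin (e + 1) → K}
    (h : (pol f).natDegree = e) : f (Fin.last e) ≠ 0 := by
  intro h0
  have h1 : (pol f).coeff (pol f).natDegree = 0 := by
    have := pol_coeff f (Fin.last e)
    rw [h0, Fin.val_last] at this
    rw [h]
    exact this
  rw [coeff_natDegree, leadingCoeff_eq_zero] at h1
  rw [h1, natDegree_zero] at h
  omega

/-- if the Galois group of `p` is `S_e` there is an enumeration of the roots and for each
permutation an automorphism -/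
theorem fullGal_roots {K : Type} [Field K] {e : ℕ} (he : 1 ≤ e) {f : Fin (e + 1) → K}
    (h : FullGal e (pol f)) :
    ∃ x : Fin e → AlgebraicClosure K, Roots (algebraMap K (AlgebraicClosure K)) f x ∧
      ∀ σ : Equiv.Perm (Fin e), ∃ τ : AlgebraicClosure K ≃ₐ[K] AlgebraicClosure K,
        ∀ i, τ (x i) = x (σ i) := by
  classical
  obtain ⟨hdeg, hsep, hgal⟩ := h
  have h0 := last_ne_zero he hdeg
  have hsplit : ((pol f).map (algebraMap K (AlgebraicClosure K))).Splits := IsAlgClosed.splits _
  have hcard : Fintype.card ((pol f).rootSet (AlgebraicClosure K)) = e := by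
    rw [card_rootSet_eq_natDegree hsep hsplit, hdeg]
  let en : Fin e ≃ (pol f).rootSet (AlgebraicClosure K) :=
    (Fintype.equivFinOfCardEq hcard).symm
  refine ⟨fun i => (en i : AlgebraicClosure K), ⟨h0, ?_, ?_⟩, ?_⟩
  · exact Subtype.val_injective.comp en.injective
  · have h1 := hsplit.eq_prod_roots
    have hlead : ((pol f).map (algebraMap K (AlgebraicClosure K))).leadingCoeff
        = algebraMap K _ (f (Fin.last e)) := by
      rw [leadingCoeff_map, leadingCoeff, hdeg]
      congr 1
      exact pol_coeff f (Fin.last e)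
    rw [h1, hlead]
    congr 1
    have hnd : ((pol f).map (algebraMap K (AlgebraicClosure K))).roots.Nodup :=
      nodup_roots hsep.map
    have hfs : ((pol f).map (algebraMap K (AlgebraicClosure K))).roots
        = (Finset.univ.map ⟨fun i => (en i : AlgebraicClosure K),
            Subtype.val_injective.comp en.injective⟩ : Finset (AlgebraicClosure K)).val := by
      have hval : ((pol f).map (algebraMap K (AlgebraicClosure K))).roots
          = ((pol f).map (algebraMap K (AlgebraicClosure K))).roots.toFinset.val := by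
        rw [Multiset.toFinset_val, Multiset.dedup_eq_self.2 hnd]
      rw [hval]
      congr 1
      ext y
      rw [Finset.mem_map]
      constructor
      · intro hy
        have hy' : y ∈ (pol f).rootSet (AlgebraicClosure K) := by
          rw [rootSet_def]
          exact_mod_cast hy
        refine ⟨en.symm ⟨y, hy'⟩, Finset.mem_univ _, ?_⟩
        show ((en (en.symm ⟨y, hy'⟩) : (pol f).rootSet (AlgebraicClosure K)) :
          AlgebraicClosure K) = y
        rw [Equiv.apply_symm_apply]
      · rintro ⟨i, _, rfl⟩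
        have hset : (pol f).rootSet (AlgebraicClosure K)
            = (((pol f).map (algebraMap K (AlgebraicClosure K))).roots.toFinset :
              Set (AlgebraicClosure K)) := rootSet_def _ _
        have hmem : ((en i : (pol f).rootSet (AlgebraicClosure K)) : AlgebraicClosure K)
            ∈ (((pol f).map (algebraMap K (AlgebraicClosure K))).roots.toFinset :
              Set (AlgebraicClosure K)) := hset ▸ (en i).2
        exact_mod_cast hmem
    rw [hfs]
    rw [Finset.map_val, Multiset.map_map]
    rfl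
  · intro σ
    obtain ⟨τ, hτ⟩ := hgal ((en.symm.trans σ).trans en)
    refine ⟨τ, fun i => ?_⟩
    have := hτ (en i)
    simpa using this

/-- the resolvent is irreducible if its roots are different -/
theorem irr_field {E : Type} [Field E] {e : ℕ} (he : 1 ≤ e) (R : Res e) (f : Fin (e + 1) → E)
    (ω : Fin e → E) (x : Fin e → AlgebraicClosure E)
    (hx : Roots (algebraMap E (AlgebraicClosure E)) f x)
    (hgal : ∀ σ : Equiv.Perm (Fin e), ∃ τ : AlgebraicClosure E ≃ₐ[E] AlgebraicClosure E,
        ∀ i, τ (x i) = x (σ i))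
    (hω : Function.Injective (fun τ : Equiv.Perm (Fin e) =>
      ∑ i, algebraMap E (AlgebraicClosure E) (ω i) * x (τ i))) :
    Irreducible (rs R.R f ω) := by
  classical
  set ψ := algebraMap E (AlgebraicClosure E) with hψ
  obtain ⟨h0, hinj, hpol⟩ := hx
  set a := f (Fin.last e) with ha
  have ha0 : ψ a ≠ 0 := by
    intro h
    exact h0 ((map_eq_zero ψ).1 h)
  rw [pol_map] at hpol
  have hmono := mono_eq he (fun i => ψ (f i)) x ha0 hpol
  have hspec := R.spec (AlgebraicClosure E) (fun i => ψ (f i)) (fun i => ψ (ω i)) _ hmono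
  rw [← rs_map] at hspec
  obtain ⟨hmon, hdeg⟩ := rs_monic R.R f ω
  set θ : Equiv.Perm (Fin e) → AlgebraicClosure E :=
    fun τ => ∑ i, ψ (ω i) * (ψ a * x (τ i)) with hθ
  have hθinj : Function.Injective θ := by
    intro τ τ' h
    apply hω
    have h1 : ∀ τ : Equiv.Perm (Fin e), θ τ = ψ a * ∑ i, ψ (ω i) * x (τ i) := by
      intro τ
      rw [hθ, Finset.mul_sum]
      refine Finset.sum_congr rfl fun i _ => ?_
      ring
    rw [h1, h1] at h
    exact mul_left_cancel₀ ha0 h
  have hint : IsIntegral E (θ 1) := Algebra.IsIntegral.isIntegral _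
  have hroot : aeval (θ 1) (rs R.R f ω) = 0 := by
    rw [aeval_def, ← eval_map, ← hψ, hspec, eval_prod]
    refine Finset.prod_eq_zero (Finset.mem_univ (1 : Equiv.Perm (Fin e))) ?_
    rw [eval_sub, eval_X, eval_C]
    exact sub_self _
  have hdvd : minpoly E (θ 1) ∣ rs R.R f ω := minpoly.dvd _ _ hroot
  have hconj : ∀ σ : Equiv.Perm (Fin e), aeval (θ σ) (minpoly E (θ 1)) = 0 := by
    intro σ
    obtain ⟨τ, hτ⟩ := hgal σ
    have h1 : τ (θ 1) = θ σ := by
      rw [hθ]
      simp only [map_sum, map_mul]
      refine Finset.sum_congr rfl fun i _ => ?_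
      rw [hψ, AlgEquiv.commutes, AlgEquiv.commutes]
      simp only [Equiv.Perm.coe_one, id_eq]
      rw [hτ]
    rw [← h1]
    have h2 : aeval (τ (θ 1)) (minpoly E (θ 1)) = τ (aeval (θ 1) (minpoly E (θ 1))) := by
      exact Polynomial.aeval_algHom_apply (τ : AlgebraicClosure E →ₐ[E] AlgebraicClosure E) _ _
    rw [h2, minpoly.aeval, map_zero]
  have hcard : e.factorial ≤ (minpoly E (θ 1)).natDegree := by
    have h1 : (Finset.univ.image θ).card = e.factorial := by
      rw [Finset.card_image_of_injective _ hθinj, Finset.card_univ, Fintype.card_perm,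
        Fintype.card_fin]
    have h2 : ((minpoly E (θ 1)).map ψ) ≠ 0 := (minpoly.monic hint).map ψ |>.ne_zero
    have h3 : (Finset.univ.image θ).val ⊆ ((minpoly E (θ 1)).map ψ).roots := by
      intro y hy
      rw [Finset.mem_val, Finset.mem_image] at hy
      obtain ⟨σ, _, rfl⟩ := hy
      rw [mem_roots h2, IsRoot.def, eval_map]
      exact hconj σ
    have h4 := card_le_degree_of_subset_roots h3
    rw [natDegree_map] at h4
    omega
  have heq : rs R.R f ω = minpoly E (θ 1) :=
    eq_of_monic_of_dvd_of_natDegree_le (minpoly.monic hint) hmon hdvd (by rw [hdeg]; exact hcard)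
  rw [heq]
  exact minpoly.irreducible hint

/-- there is a linear form which separates the permutations -/
theorem exists_sep {k M : Type} [Field k] [Infinite k] [Field M] [Algebra k M] {e : ℕ}
    (x : Fin e → M) (hx : Function.Injective x) :
    ∃ ω : Fin e → k, Function.Injective (fun τ : Equiv.Perm (Fin e) =>
      ∑ i, algebraMap k M (ω i) * x (τ i)) := by
  classical
  let L : (Equiv.Perm (Fin e) × Equiv.Perm (Fin e)) → ((Fin e → k) →ₗ[k] M) := fun p =>
    ∑ i, (LinearMap.toSpanSingleton k M (x (p.1 i) - x (p.2 i))).comp (LinearMap.proj i)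
  have hL : ∀ p ω, L p ω = ∑ i, algebraMap k M (ω i) * (x (p.1 i) - x (p.2 i)) := by
    intro p ω
    simp only [L, LinearMap.sum_apply, LinearMap.comp_apply, LinearMap.proj_apply,
      LinearMap.toSpanSingleton_apply, Algebra.smul_def]
  let I := {p : Equiv.Perm (Fin e) × Equiv.Perm (Fin e) // p.1 ≠ p.2}
  by_contra hcon
  push Not at hcon
  have hcov : (⋃ p : I, ((LinearMap.ker (L p.1) : Submodule k (Fin e → k)) :
      Set (Fin e → k))) = Set.univ := by
    rw [Set.eq_univ_iff_forall]
    intro ω
    have h1 := hcon ω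
    rw [Function.Injective] at h1
    push Not at h1
    obtain ⟨τ, τ', h2, h3⟩ := h1
    rw [Set.mem_iUnion]
    refine ⟨⟨(τ, τ'), h3⟩, ?_⟩
    show L (τ, τ') ω = 0
    rw [hL]
    have h4 : ∑ i, algebraMap k M (ω i) * x (τ i) = ∑ i, algebraMap k M (ω i) * x (τ' i) := h2
    simp only [mul_sub, Finset.sum_sub_distrib]
    rw [h4, sub_self]
  obtain ⟨p, hp⟩ := Subspace.exists_eq_top_of_iUnion_eq_univ hcov
  rw [LinearMap.ker_eq_top] at hp
  apply p.2
  ext i
  have h5 : L p.1 (Pi.single i 1) = 0 := by rw [hp]; rfl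
  rw [hL, Finset.sum_eq_single i] at h5
  · rw [Pi.single_eq_same, map_one, one_mul, sub_eq_zero] at h5
    exact congrArg Fin.val (hx h5)
  · intro j _ hj
    rw [Pi.single_eq_of_ne hj, map_zero, zero_mul]
  · intro h
    exact absurd (Finset.mem_univ i) h

theorem main : S_GEO := by
  intro e R g he hfull
  have he1 : 1 ≤ e := by omega
  obtain ⟨x, hroots, hgal⟩ := fullGal_roots he1 hfull
  obtain ⟨ω, hω⟩ := exists_sep (k := ℂ) x hroots.2.1
  refine ⟨ω, ?_⟩
  obtain ⟨hmon, _⟩ := rs_monic R.R g (fun i => (C (ω i) : ℂ[X]))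
  rw [hmon.irreducible_iff_irreducible_map_fraction_map (K := RatFunc ℂ), rs_map]
  refine irr_field he1 R _ _ x hroots hgal ?_
  have h1 : ∀ i, algebraMap (RatFunc ℂ) (AlgebraicClosure (RatFunc ℂ))
      (algebraMap ℂ[X] (RatFunc ℂ) (C (ω i))) = algebraMap ℂ (AlgebraicClosure (RatFunc ℂ)) (ω i) := by
    intro i
    rw [IsScalarTower.algebraMap_apply ℂ (RatFunc ℂ) (AlgebraicClosure (RatFunc ℂ)),
      IsScalarTower.algebraMap_apply ℂ ℂ[X] (RatFunc ℂ)]
    rfl
  simp only [h1]
  exact hω

end Pool.Agent.N362.HX
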